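import Pool.Agent.Helper49.PA.GoalsA

/-!
# Packet GOOD (MP_c20641_lc)
-/

namespace PA49.PkGood

open PA49

variable {L : Type} [Lattice L] [BoundedOrder L]

theorem infP_le {X : Type} (s : PSim L X) (P : List (X × X)) {x y : X} (h : (x, y) ∈ P) :
    infP s P ≤ s.k x y := by
  induction P with
  | nil => simp at h
  | cons q P ih =>
    unfold infP at ih ⊢
    rw [List.foldr_cons]
    rcases List.mem_cons.mp h with h | h
    · rw [← h]
      exact inf_le_left
    · exact inf_le_right.trans (ih h)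

theorem chain_sub {Y V Z : Type} (t : PSim L Y) (v : PSim L V) (P : List (Y × Y))
    {ψ : Z → Z → Prop} (hψ : Equivalence ψ) (F : Set (V → Z))
    (h : ∀ g : Y → V, NE t v g → ∀ p ∈ P, ∀ f ∈ F, ψ (f (g p.1)) (f (g p.2)))
    {u w : V} (hc : Chain t v P u w) : ∀ f ∈ F, ψ (f u) (f w) := by
  unfold Chain at hc
  induction hc with
  | rel a b hab =>
    obtain ⟨g, hg, p, hp, rfl, rfl⟩ := hab
    exact h g hg p hp
  | refl a => exact fun f _ => hψ.refl _
  | symm a b _ ih => exact fun f hf => hψ.symm (ih f hf)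
  | trans a b c _ _ ih1 ih2 => exact fun f hf => hψ.trans (ih1 f hf) (ih2 f hf)

theorem claim (h : G_STEP) {X : Type} [Finite X] (s : Sim L X) : ∀ K : ℕ, ∀ (Y : Type) [Finite Y]
    (t : Sim L Y) (e : X → Y), Isom s.toPSim t.toPSim e →
    ∃ (Z : Type) (_ : Finite Z) (z : Sim L Z), ∀ ψ : Z → Z → Prop, Equivalence ψ →
      ∃ F : Set (Y → Z), (∀ f ∈ F, NE t.toPSim z.toPSim f) ∧
        (∃ f ∈ F, Isom t.toPSim z.toPSim f) ∧
        ((∃ r : L, ∀ x y, (∀ f ∈ F, ψ (f (e x)) (f (e y))) ↔ r ≤ s.k x y) ∨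
          Nat.card {p : X × X // ∀ f ∈ F, ψ (f (e p.1)) (f (e p.2))} + K ≤
            Nat.card (X × X)) := by
  intro K
  induction K with
  | zero =>
    intro Y _ t e he
    refine ⟨Y, inferInstance, t, fun ψ hψ => ⟨{id}, ?_, ?_, Or.inr ?_⟩⟩
    · rintro f rfl
      exact fun x y => le_rfl
    · exact ⟨id, rfl, fun x y => rfl⟩
    · rw [add_zero]
      exact Finite.card_subtype_le _
  | succ K ih =>
    intro Y _ t e he
    obtain ⟨V, hV, v, i, hi, hchain⟩ := h L X Y s t e he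
    obtain ⟨Z, hZ, z, hz⟩ := ih V v (i ∘ e) (fun x y => by
      rw [Function.comp_apply, Function.comp_apply, hi, he])
    refine ⟨Z, hZ, z, fun ψ hψ => ?_⟩
    obtain ⟨F', hNE, ⟨f0, hf0, hiso⟩, hcase⟩ := hz ψ hψ
    rcases hcase with ⟨r, hr⟩ | hcard
    · -- canonical
      refine ⟨{g | ∃ f ∈ F', g = f ∘ i}, ?_, ⟨f0 ∘ i, ⟨f0, hf0, rfl⟩, ?_⟩, Or.inl ⟨r, ?_⟩⟩
      · rintro _ ⟨f, hf, rfl⟩ x y
        calc t.k x y = v.k (i x) (i y) := (hi x y).symm
          _ ≤ _ := hNE f hf _ _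
      · intro x y
        rw [Function.comp_apply, Function.comp_apply, hiso, hi]
      · intro x y
        rw [← hr x y]
        constructor
        · intro h1 f hf
          exact h1 (f ∘ i) ⟨f, hf, rfl⟩
        · rintro h1 _ ⟨f, hf, rfl⟩
          exact h1 f hf
    · set F : Set (Y → Z) := {k | ∃ f ∈ F', ∃ g : Y → V, NE t.toPSim v.toPSim g ∧ k = f ∘ g}
        with hF
      have hsub : ∀ x y : X, (∀ f ∈ F, ψ (f (e x)) (f (e y))) →
          ∀ f ∈ F', ψ (f ((i ∘ e) x)) (f ((i ∘ e) y)) := by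
        intro x y h1 f hf
        exact h1 (f ∘ i) ⟨f, hf, i, fun a b => (hi a b).ge, rfl⟩
      refine ⟨F, ?_, ⟨f0 ∘ i, ⟨f0, hf0, i, fun a b => (hi a b).ge, rfl⟩, ?_⟩, ?_⟩
      · rintro _ ⟨f, hf, g, hg, rfl⟩ x y
        exact (hg x y).trans (hNE f hf _ _)
      · intro x y
        rw [Function.comp_apply, Function.comp_apply, hiso, hi]
      · by_cases heq : ∀ x y : X, (∀ f ∈ F', ψ (f ((i ∘ e) x)) (f ((i ∘ e) y))) →
          (∀ f ∈ F, ψ (f (e x)) (f (e y)))
        · left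
          set P : List (X × X) :=
            (Set.toFinite {p : X × X | ∀ f ∈ F, ψ (f (e p.1)) (f (e p.2))}).toFinset.toList
            with hP
          have hmem : ∀ p : X × X, p ∈ P ↔ ∀ f ∈ F, ψ (f (e p.1)) (f (e p.2)) := by
            intro p
            rw [hP, Finset.mem_toList, Set.Finite.mem_toFinset]
            rfl
          refine ⟨infP s.toPSim P, fun x y => ⟨fun h1 => ?_, fun h1 => ?_⟩⟩
          · exact infP_le _ _ ((hmem (x, y)).mpr h1)
          · apply heq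
            have hc := hchain P x y h1
            refine chain_sub t.toPSim v.toPSim _ hψ F' ?_ hc
            intro g hg p hp f hf
            rw [List.mem_map] at hp
            obtain ⟨q, hq, rfl⟩ := hp
            exact (hmem q).mp hq (f ∘ g) ⟨f, hf, g, hg, rfl⟩
        · right
          push Not at heq
          obtain ⟨x0, y0, h1, h2⟩ := heq
          have hlt : Nat.card {p : X × X // ∀ f ∈ F, ψ (f (e p.1)) (f (e p.2))} <
              Nat.card {p : X × X // ∀ f ∈ F', ψ (f ((i ∘ e) p.1)) (f ((i ∘ e) p.2))} := by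
            refine Set.ncard_lt_ncard (s := {p : X × X | ∀ f ∈ F, ψ (f (e p.1)) (f (e p.2))})
              (t := {p : X × X | ∀ f ∈ F', ψ (f ((i ∘ e) p.1)) (f ((i ∘ e) p.2))}) ?_
              (Set.toFinite _)
            refine ⟨fun p hp => hsub p.1 p.2 hp, fun hsup => ?_⟩
            obtain ⟨f, hf, hne⟩ := h2
            exact hne (hsup (a := (x0, y0)) h1 f hf)
          omega

theorem good (h : G_STEP) : G_GOOD := by
  intro L _ _ X _ s
  obtain ⟨Z, hZ, z, hz⟩ := claim h s (Nat.card (X × X) + 1) X s id (fun x y => rfl)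
  refine ⟨Z, hZ, z, fun ψ hψ => ?_⟩
  obtain ⟨F, h1, h2, h3⟩ := hz ψ hψ
  rcases h3 with ⟨r, hr⟩ | h3
  · exact ⟨F, h1, h2, r, hr⟩
  · omega

end PA49.PkGood
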